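import Mathlib
import Pool.Agent.Lib.MP_02ae3d_ag.H88Fin
import Pool.Agent.Lib.MP_02ae3d_ag.Wrap

set_option autoImplicit false

namespace Pool.Agent.Results.MP_02ae3d_ag.Kleinian
open Module MvPolynomial

variable {k : Type} [Field k] {d r : ℕ}

/-- The vectors `v j` generate `k^d` as a module over `k[T 0, T 1, T 2]`. -/
def Generates (T : Fin 3 → Matrix (Fin d) (Fin d) k) (v : Fin r → Fin d → k) : Prop :=
  ∀ p : Submodule k (Fin d → k), (∀ j, v j ∈ p) → (∀ i, ∀ u ∈ p, (T i).mulVec u ∈ p) → p = ⊤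

/-- The module given by `T` is the sum of `d` distinct reduced points `a j` of `k^3`. -/
def Distinct (T : Fin 3 → Matrix (Fin d) (Fin d) k) : Prop :=
  ∃ (b : Basis (Fin d) k (Fin d → k)) (a : Fin d → Fin 3 → k), a.Injective ∧
    ∀ i j, (T i).mulVec (b j) = a j i • b j

/-- All entries of the three matrices and of the `r` vectors. -/
def coords (T : Fin 3 → Matrix (Fin d) (Fin d) k) (v : Fin r → Fin d → k) :
    (Fin 3 × Fin d × Fin d) ⊕ (Fin r × Fin d) → k :=
  Sum.elim (fun x => T x.1 x.2.1 x.2.2) (fun x => v x.1 x.2)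

/-- On the subspace `p` the three matrices act through a module structure of `p` over a Kleinian
singularity: the ring `R` of invariants in `k[u,v]` of a finite subgroup `Γ` of `SL_2(k)`. -/
def KleinOn (T : Fin 3 → Matrix (Fin d) (Fin d) k) (p : Submodule k (Fin d → k)) : Prop :=
  ∃ (Γ : Subgroup (Matrix.SpecialLinearGroup (Fin 2) k)) (R : Subalgebra k (MvPolynomial (Fin 2) k))
    (ρ : R →ₐ[k] End k p), Finite Γ ∧
    (∀ f, f ∈ R ↔ ∀ g ∈ Γ, aeval (fun i => ∑ j, C (g j i) * X j) f = f) ∧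
    ∀ i, ∃ x : R, ∀ u : p, (T i).mulVec u = ρ x u

theorem result [IsAlgClosed k] [CharZero k] (hr : 1 ≤ r) (T : Fin 3 → Matrix (Fin d) (Fin d) k)
    (v : Fin r → Fin d → k) {n : ℕ} (p : Fin n → Submodule k (Fin d → k))
    (hp : DirectSum.IsInternal p) (h : ∀ i, KleinOn T (p i))
    (f : MvPolynomial ((Fin 3 × Fin d × Fin d) ⊕ (Fin r × Fin d)) k)
    (hf : ∀ T w, Distinct T → Generates T w → eval (coords T w) f = 0) :
    eval (coords T v) f = 0 := by
  choose Γ R ρ fin hR x hx using h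
  exact Lib.MP_02ae3d_ag.Wrap.wrap hr T v (Lib.MP_02ae3d_ag.H88.sm_fin (T := fun j => (T j).toLin')
    hp.submodule_iSupIndep hp.submodule_iSup_eq_top (T' := fun i j => ρ i (x i j))
    (fun i j u => (hx i j u).symm) fun i =>
      have := fin i
      Lib.MP_02ae3d_ag.H88.klein' (Γ i) (R i) (hR i) (ρ i) (x i)) f hf

end Pool.Agent.Results.MP_02ae3d_ag.Kleinian
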