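import Mathlib
import Pool.Agent.Lib.MP_02ae3d_ag.H88HE
import Pool.Agent.Lib.MP_02ae3d_ag.H11W

set_option autoImplicit false

namespace Pool.Agent.Results.MP_02ae3d_ag.RankOne

variable {k : Type} [Field k] {d : ℕ}

/-- The vector `v 0` generates `k^d` as a module over `k[T 0, T 1, T 2]`. -/
def Generates (T : Fin 3 → Matrix (Fin d) (Fin d) k) (v : Fin 1 → Fin d → k) : Prop :=
  ∀ p : Submodule k (Fin d → k), (∀ j, v j ∈ p) → (∀ i, ∀ u ∈ p, (T i).mulVec u ∈ p) → p = ⊤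

/-- All entries of the three matrices and of the vector. -/
def coords (T : Fin 3 → Matrix (Fin d) (Fin d) k) (v : Fin 1 → Fin d → k) :
    (Fin 3 × Fin d × Fin d) ⊕ (Fin 1 × Fin d) → k :=
  Sum.elim (fun x => T x.1 x.2.1 x.2.2) (fun x => v x.1 x.2)

theorem result [IsAlgClosed k] [CharZero k] (hd : d ≤ 14) :
    (MvPolynomial.vanishingIdeal k {x | ∃ (T : Fin 3 → Matrix (Fin d) (Fin d) k)
      (v : Fin 1 → Fin d → k), (∀ i j, T i * T j = T j * T i) ∧ Generates T v ∧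
        coords T v = x}).IsPrime := by
  convert Lib.MP_02ae3d_ag.H88.prime_of (k := k) (d := d) (U := {x | (∀ i j, x.1 i * x.1 j =
    x.1 j * x.1 i) ∧ Generates x.1 x.2}) le_rfl (fun _ _ a b => ⟨a, b⟩)
    fun x h => Lib.MP_02ae3d_ag.H88.sm_cyc ((Nat.lt_or_ge d 14).imp Nat.le_of_lt_succ
      fun a => ⟨hd.antisymm a, Lib.MP_02ae3d_ag.H88.vc4⟩) h.1 h.2
  ext x
  exact ⟨fun ⟨T, v, a, b, c⟩ => ⟨(T, v), ⟨a, b⟩, c⟩, fun ⟨y, a, c⟩ => ⟨y.1, y.2, a.1, a.2, c⟩⟩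

end Pool.Agent.Results.MP_02ae3d_ag.RankOne
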